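import Pool.Agent.N978.JT.Stm

/-!
# Project JT (helper978), part CC (helper667): concavity of the dimensions of the kernels of powers
-/

set_option autoImplicit false

namespace Pool.Agent.N978.JT

open Module LinearMap

namespace CC

/-- the increments of the dimensions of the kernels -/
theorem step (K V : Type) [Field K] [AddCommGroup V] [Module K V] [FiniteDimensional K V]
    (N : End K V) (j : ℕ) : finrank K (ker (N ^ (j + 1))) =
      finrank K (ker (N ^ j)) + finrank K (ker N ⊓ range (N ^ j) : Submodule K V) := by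
  have hle : ker (N ^ j) ≤ ker (N ^ (j + 1)) := by
    intro x hx
    rw [LinearMap.mem_ker] at hx ⊢
    rw [pow_succ', Module.End.mul_apply, hx, map_zero]
  have h1 := LinearMap.finrank_range_add_finrank_ker ((N ^ j).domRestrict (ker (N ^ (j + 1))))
  have h2 : range ((N ^ j).domRestrict (ker (N ^ (j + 1)))) = ker N ⊓ range (N ^ j) := by
    ext y
    constructor
    · rintro ⟨⟨x, hx⟩, rfl⟩
      refine ⟨?_, x, rfl⟩
      rw [SetLike.mem_coe, LinearMap.mem_ker]
      rw [LinearMap.mem_ker, pow_succ', Module.End.mul_apply] at hx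
      exact hx
    · rintro ⟨hy, x, rfl⟩
      refine ⟨⟨x, ?_⟩, rfl⟩
      rw [LinearMap.mem_ker, pow_succ', Module.End.mul_apply]
      exact hy
  have h3 : ker ((N ^ j).domRestrict (ker (N ^ (j + 1)))) =
      Submodule.comap (ker (N ^ (j + 1))).subtype (ker (N ^ j)) := by
    ext x
    rfl
  have h4 : finrank K (Submodule.comap (ker (N ^ (j + 1))).subtype (ker (N ^ j))) =
      finrank K (ker (N ^ j)) := (Submodule.comapSubtypeEquivOfLe hle).finrank_eq
  rw [h2, h3, h4] at h1
  omega

end CC

theorem t_CC : S_CC := by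
  intro K V _ _ _ _ N j
  have h1 := CC.step K V N j
  have h2 := CC.step K V N (j + 1)
  have h3 : finrank K (ker N ⊓ range (N ^ (j + 1)) : Submodule K V) ≤
      finrank K (ker N ⊓ range (N ^ j) : Submodule K V) := by
    refine Submodule.finrank_mono (inf_le_inf_left _ ?_)
    rintro _ ⟨x, rfl⟩
    exact ⟨N x, by rw [pow_succ, Module.End.mul_apply]⟩
  have h4 : j + 2 = j + 1 + 1 := rfl
  rw [h4]
  omega

end Pool.Agent.N978.JT
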