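import Pool.Agent.N978.JT.Stm

/-!
# JT/CO: concave sequences and sub-multisets (project of helper978, written by helper935)
-/

set_option autoImplicit false

namespace Pool.Agent.N978.JT

namespace CO

lemma kd_count (l : Multiset ℕ) (j : ℕ) :
    kerDims l j + kerDims l (j + 2) + l.count (j + 1) = 2 * kerDims l (j + 1) := by
  unfold kerDims
  induction l using Multiset.induction_on with
  | empty => simp
  | cons b l ih =>
    simp only [Multiset.map_cons, Multiset.sum_cons, Multiset.count_cons]
    have hb : min b j + min b (j + 2) + (if j + 1 = b then 1 else 0) = 2 * min b (j + 1) := by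
      split_ifs with h
      · subst h
        omega
      · omega
    omega

lemma tele (κ m : ℕ → ℕ) (h0 : κ 0 = 0)
    (hm : ∀ j, 2 * κ (j + 1) = κ j + κ (j + 2) + m j) (n : ℕ) :
    ∑ j ∈ Finset.range n, m j * (j + 1) + n * κ (n + 1) = (n + 1) * κ n := by
  induction n with
  | zero => simp [h0]
  | succ n ih =>
    rw [Finset.sum_range_succ]
    have h := hm n
    have h1 : (n + 1) * (2 * κ (n + 1)) = (n + 1) * (κ n + κ (n + 2) + m n) := by rw [h]
    nlinarith

end CO

theorem t_CO : S_CO := by
  intro l κ κ' d N h0 h0' hsum hc hc' hd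
  set m : ℕ → ℕ := fun j => 2 * κ (j + 1) - (κ j + κ (j + 2)) with hm
  have hm1 : ∀ j, 2 * κ (j + 1) = κ j + κ (j + 2) + m j := by
    intro j
    have := hc j
    simp only [hm]
    omega
  have hcount : ∀ j, m j ≤ l.count (j + 1) := by
    intro j
    have h1 := CO.kd_count l j
    rw [← hsum j, ← hsum (j + 2), ← hsum (j + 1)] at h1
    have h2 := hm1 j
    have h3 := hc' j
    omega
  refine ⟨∑ j ∈ Finset.range N, Multiset.replicate (m j) (j + 1), ?_, ?_⟩
  · rw [Multiset.le_iff_count]
    intro b
    rw [Multiset.count_sum']
    simp only [Multiset.count_replicate]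
    rcases Nat.eq_zero_or_pos b with hb | hb
    · subst hb
      simp
    · obtain ⟨k, rfl⟩ : ∃ k, b = k + 1 := ⟨b - 1, by omega⟩
      have h1 : ∀ j, (if j + 1 = k + 1 then m j else 0) = if j = k then m j else 0 := by
        intro j
        by_cases h : j = k
        · simp [h]
        · rw [if_neg h, if_neg (by omega)]
      simp only [h1, Finset.sum_ite_eq']
      split_ifs
      · exact hcount k
      · exact Nat.zero_le _
  · have h1 : (∑ j ∈ Finset.range N, Multiset.replicate (m j) (j + 1)).sum =
        ∑ j ∈ Finset.range N, m j * (j + 1) := by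
      have := map_sum (Multiset.sumAddMonoidHom (M := ℕ))
        (fun j => Multiset.replicate (m j) (j + 1)) (Finset.range N)
      simp only [Multiset.coe_sumAddMonoidHom] at this
      rw [this]
      refine Finset.sum_congr rfl fun j _ => ?_
      rw [Multiset.sum_replicate, smul_eq_mul]
    rw [h1]
    have h2 := CO.tele κ m h0 hm1 N
    rw [hd N le_rfl, hd (N + 1) (Nat.le_succ N)] at h2
    nlinarith

end Pool.Agent.N978.JT
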