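import Pool.Agent.N978.JT.Stm

/-!
# Kernels of powers on a stable direct sum (helper353)
-/

set_option autoImplicit false

namespace Pool.Agent.N978.JT

open Module Polynomial LinearMap

namespace DS

variable {K V : Type} [Field K] [AddCommGroup V] [Module K V]

theorem pow_apply' (N : End K V) (U : Submodule K V) (hU : ∀ x ∈ U, N x ∈ U) (j : ℕ) (x : U) :
    ((((N.restrict hU) ^ j) x : U) : V) = (N ^ j) (x : V) := by
  induction j generalizing x with
  | zero => rfl
  | succ j ih =>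
    rw [pow_succ, pow_succ, Module.End.mul_apply, Module.End.mul_apply, ih]
    rfl

/-- the sum map -/
def sm (U U' : Submodule K V) (A : Submodule K U) (B : Submodule K U') : A × B →ₗ[K] V :=
  (U.subtype ∘ₗ A.subtype).coprod (U'.subtype ∘ₗ B.subtype)

theorem sm_apply (U U' : Submodule K V) (A : Submodule K U) (B : Submodule K U') (q : A × B) :
    sm U U' A B q = ((q.1 : U) : V) + ((q.2 : U') : V) := rfl

theorem sm_inj {U U' : Submodule K V} (h : Disjoint U U') (A : Submodule K U)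
    (B : Submodule K U') : Function.Injective (sm U U' A B) := by
  rw [← LinearMap.ker_eq_bot, LinearMap.ker_eq_bot']
  intro q hq
  rw [sm_apply] at hq
  have h1 : ((q.1 : U) : V) = -((q.2 : U') : V) := eq_neg_of_add_eq_zero_left hq
  have h2 : ((q.1 : U) : V) ∈ U' := by
    rw [h1]
    exact U'.neg_mem (q.2 : U').2
  have h3 : ((q.1 : U) : V) = 0 := Submodule.disjoint_def.1 h _ (q.1 : U).2 h2
  have h4 : ((q.2 : U') : V) = 0 := by
    rw [h3, zero_add] at hq
    exact hq
  apply Prod.ext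
  · exact Subtype.ext (Subtype.ext h3)
  · exact Subtype.ext (Subtype.ext h4)

end DS

theorem t_DS : S_DS := by
  intro K V _ _ _ _ N U U' hU hU' h j
  have hr : LinearMap.range (DS.sm U U' (ker ((N.restrict hU) ^ j)) (ker ((N.restrict hU') ^ j))) =
      ker (N ^ j) := by
    ext v
    rw [LinearMap.mem_range, LinearMap.mem_ker]
    constructor
    · rintro ⟨q, rfl⟩
      rw [DS.sm_apply, map_add, ← DS.pow_apply' N U hU, ← DS.pow_apply' N U' hU']
      have h1 : ((N.restrict hU) ^ j) (q.1 : U) = 0 := q.1.2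
      have h2 : ((N.restrict hU') ^ j) (q.2 : U') = 0 := q.2.2
      rw [h1, h2]
      simp
    · intro hv
      have hvt : v ∈ U ⊔ U' := by
        rw [h.sup_eq_top]
        trivial
      obtain ⟨x, hx, y, hy, rfl⟩ := Submodule.mem_sup.1 hvt
      rw [map_add] at hv
      have e1 : (N ^ j) x = ((((N.restrict hU) ^ j) ⟨x, hx⟩ : U) : V) :=
        (DS.pow_apply' N U hU j ⟨x, hx⟩).symm
      have e2 : (N ^ j) y = ((((N.restrict hU') ^ j) ⟨y, hy⟩ : U') : V) :=
        (DS.pow_apply' N U' hU' j ⟨y, hy⟩).symm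
      rw [e1, e2] at hv
      have h1 : ((((N.restrict hU) ^ j) ⟨x, hx⟩ : U) : V) =
          -((((N.restrict hU') ^ j) ⟨y, hy⟩ : U') : V) := eq_neg_of_add_eq_zero_left hv
      have h2 : ((((N.restrict hU) ^ j) ⟨x, hx⟩ : U) : V) ∈ U' := by
        rw [h1]
        exact U'.neg_mem (((N.restrict hU') ^ j) ⟨y, hy⟩).2
      have h3 : ((((N.restrict hU) ^ j) ⟨x, hx⟩ : U) : V) = 0 :=
        Submodule.disjoint_def.1 h.disjoint _ (((N.restrict hU) ^ j) ⟨x, hx⟩).2 h2
      have h4 : ((((N.restrict hU') ^ j) ⟨y, hy⟩ : U') : V) = 0 := by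
        rw [h3, zero_add] at hv
        exact hv
      exact ⟨(⟨⟨x, hx⟩, Subtype.ext h3⟩, ⟨⟨y, hy⟩, Subtype.ext h4⟩), rfl⟩
  rw [← hr, LinearMap.finrank_range_of_inj (DS.sm_inj h.disjoint _ _), Module.finrank_prod]

end Pool.Agent.N978.JT
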