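import Pool.Agent.N978.JT.Irr
import Pool.Agent.N978.HP.Final

/-!
# Tate endomorphisms and Jordan types
-/

set_option autoImplicit false
set_option linter.unusedSectionVars false

namespace Pool.Agent.N978.JT

open Module Polynomial LinearMap Pool.Agent.Y114.TF Pool.Agent.Y114.GF Pool.Agent.Y114.MU
  Pool.Agent.Y114.RM Pool.Agent.H204R3.GP Pool.Agent.N203.RE

section abstract

variable {K V : Type} [Field K] [AddCommGroup V] [Module K V] [FiniteDimensional K V]

/-- Stable subspaces have stable complements. -/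
def Semi (A : Set (End K V)) : Prop := ∀ U : Submodule K V, (∀ a ∈ A, ∀ x ∈ U, a x ∈ U) →
  ∃ U' : Submodule K V, (∀ a ∈ A, ∀ x ∈ U', a x ∈ U') ∧ IsCompl U U'

variable {A : Set (End K V)} {κ : Type} {g : κ → End K V} {l : κ → Multiset ℕ}

theorem irreducible (hA : Semi A) (hg : ∀ c, g c ∈ A) (hl : ∀ c, HasBlocks (g c) (l c))
    (hs : ∀ d, 0 < d → d < finrank K V → ∃ c, ¬ IsPartSum (l c) d) (U : Submodule K V)
    (hU : ∀ a ∈ A, ∀ x ∈ U, a x ∈ U) : U = ⊥ ∨ U = ⊤ := by
  obtain ⟨U', hU', hc⟩ := hA U hU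
  by_contra hcon
  push Not at hcon
  have h1 : 0 < finrank K U := by
    rw [Nat.pos_iff_ne_zero]
    intro h0
    exact hcon.1 (Submodule.finrank_eq_zero.1 h0)
  have h2 : finrank K U < finrank K V := Submodule.finrank_lt hcon.2
  obtain ⟨c, hc'⟩ := hs _ h1 h2
  exact hc' (partSum_of_isCompl (hl c) (hU _ (hg c)) (hU' _ (hg c)) hc)

theorem scalar (hA : Semi A) (hg : ∀ c, g c ∈ A) (hl : ∀ c, HasBlocks (g c) (l c))
    (hs : ∀ d, 0 < d → d < finrank K V → ∃ c, ¬ IsPartSum (l c) d) (f : End K V)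
    (hf : ∀ a ∈ A, a * f = f * a) : ∃ b : K, ∀ x, f x = b • x := by
  classical
  by_cases hV : finrank K V = 0
  · have : Subsingleton V := Module.finrank_zero_iff.1 hV
    exact ⟨0, fun x => Subsingleton.elim _ _⟩
  have hn : Nontrivial V := Module.finrank_pos_iff.1 (Nat.pos_of_ne_zero hV)
  have hnu : ¬ IsUnit (minpoly K f) := minpoly.not_isUnit K f
  have hne : minpoly K f ≠ 0 := minpoly.ne_zero (Algebra.IsIntegral.isIntegral f)
  obtain ⟨p, hp, q, hq⟩ := WfDvdMonoid.exists_irreducible_factor hnu hne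
  -- the kernel of `p(f)` is stable and not zero
  have hcomm : ∀ a ∈ A, ∀ r : K[X], a * aeval f r = aeval f r * a := by
    intro a ha r
    have h1 : Commute a f := hf a ha
    have h2 : ∀ r : K[X], Commute a (aeval f r) := by
      intro r
      induction r using Polynomial.induction_on' with
      | add x y hx hy => rw [map_add]; exact hx.add_right hy
      | monomial k b =>
        rw [aeval_monomial]
        exact (Algebra.commute_algebraMap_right b a).mul_right (h1.pow_right k)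
    exact (h2 r).eq
  have hker : ker (aeval f p) ≠ ⊥ := by
    intro h0
    have hq0 : q ≠ 0 := by
      rintro rfl
      rw [mul_zero] at hq
      exact hne hq
    have h1 : aeval f q = 0 := by
      refine LinearMap.ext fun x => ?_
      have h2 : (aeval f p) ((aeval f q) x) = 0 := by
        rw [← Module.End.mul_apply, ← map_mul, ← hq, minpoly.aeval, LinearMap.zero_apply]
      have h3 : (aeval f q) x ∈ ker (aeval f p) := h2
      rw [h0] at h3
      exact (Submodule.mem_bot K).1 h3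
    have h4 := minpoly.degree_le_of_ne_zero K f hq0 h1
    have h5 := Polynomial.natDegree_le_natDegree h4
    rw [hq, Polynomial.natDegree_mul hp.ne_zero hq0] at h5
    have := hp.natDegree_pos
    omega
  have htop : ker (aeval f p) = ⊤ := by
    refine (irreducible hA hg hl hs (ker (aeval f p)) ?_).resolve_left hker
    intro a ha x hx
    rw [LinearMap.mem_ker] at hx ⊢
    rw [← Module.End.mul_apply, ← hcomm a ha p, Module.End.mul_apply, hx, map_zero]
  have hpf : aeval f p = 0 := LinearMap.ker_eq_top.1 htop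
  -- the degree of `p` is one
  have hdeg : p.natDegree = 1 := by
    by_contra hne1
    have hpos := hp.natDegree_pos
    have h2 : 2 ≤ p.natDegree := by omega
    have hlt : finrank K V / p.natDegree < finrank K V :=
      Nat.div_lt_self (Nat.pos_of_ne_zero hV) h2
    have hd : p.natDegree ∣ finrank K V := t_FD K V f p hp hpf
    have hpos' : 0 < finrank K V / p.natDegree :=
      Nat.div_pos (Nat.le_of_dvd (Nat.pos_of_ne_zero hV) hd) hpos
    obtain ⟨c, hc⟩ := hs _ hpos' hlt
    apply hc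
    obtain ⟨d, hd1, hd2⟩ := partSum_of_field (hl c) (hf _ (hg c)) hp hpf
    rw [← hd2, Nat.mul_div_cancel_left _ hpos]
    exact hd1
  obtain ⟨a, ha, b, hab⟩ := Polynomial.natDegree_eq_one.1 hdeg
  refine ⟨-(a⁻¹ * b), fun x => ?_⟩
  have h1 : a • f x + b • x = 0 := by
    have h2 := LinearMap.congr_fun hpf x
    rw [← hab] at h2
    simp only [map_add, map_mul, aeval_C, aeval_X, LinearMap.add_apply, Module.End.mul_apply,
      Module.algebraMap_end_apply, LinearMap.zero_apply] at h2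
    exact h2
  have h3 : f x = a⁻¹ • (a • f x) := by rw [smul_smul, inv_mul_cancel₀ ha, one_smul]
  rw [h3, eq_neg_of_add_eq_zero_left h1, smul_neg, smul_smul, neg_smul]

/-- a homomorphism between irreducible representations with different block sizes is zero -/
theorem hom_zero {V' : Type} [AddCommGroup V'] [Module K V'] [FiniteDimensional K V']
    {Γ : Type} {Δ : Set Γ} {ρ : Γ → End K V} {ρ' : Γ → End K V'} {γ : Γ} (hγ : γ ∈ Δ)
    {l l' : Multiset ℕ} (hl : HasBlocks (ρ γ) l) (hl' : HasBlocks (ρ' γ) l') (hne : l ≠ l')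
    (h1 : ∀ U : Submodule K V, (∀ t ∈ Δ, ∀ x ∈ U, ρ t x ∈ U) → U = ⊥ ∨ U = ⊤)
    (h2 : ∀ U : Submodule K V', (∀ t ∈ Δ, ∀ x ∈ U, ρ' t x ∈ U) → U = ⊥ ∨ U = ⊤)
    (f : V →ₗ[K] V') (hf : ∀ t ∈ Δ, ∀ x, f (ρ t x) = ρ' t (f x)) : f = 0 := by
  by_contra hf0
  have hk : ker f = ⊥ := by
    refine (h1 (ker f) ?_).resolve_right fun h => hf0 (LinearMap.ker_eq_top.1 h)
    intro t ht x hx
    rw [LinearMap.mem_ker] at hx ⊢
    rw [hf t ht, hx, map_zero]
  have hr : range f = ⊤ := by
    refine (h2 (range f) ?_).resolve_left fun h => hf0 (LinearMap.range_eq_bot.1 h)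
    rintro t ht _ ⟨x, rfl⟩
    exact ⟨ρ t x, hf t ht x⟩
  let e : V ≃ₗ[K] V' := LinearEquiv.ofBijective f ⟨LinearMap.ker_eq_bot.1 hk,
    LinearMap.range_eq_top.1 hr⟩
  have he : ∀ x, e x = f x := fun x => rfl
  apply hne
  refine blocks_unique hl hl' fun j => ?_
  have h3 : ∀ (j : ℕ) (x : V), e (((ρ γ - 1) ^ j) x) = ((ρ' γ - 1) ^ j) (e x) := by
    intro j
    induction j with
    | zero => intro x; simp
    | succ j ih =>
      intro x
      rw [pow_succ', pow_succ', Module.End.mul_apply, Module.End.mul_apply, ← ih,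
        LinearMap.sub_apply, LinearMap.sub_apply, map_sub, he, hf γ hγ]
      rfl
  have h4 : (ker ((ρ γ - 1) ^ j)).map (e : V →ₗ[K] V') = ker ((ρ' γ - 1) ^ j) := by
    ext y
    rw [Submodule.mem_map]
    constructor
    · rintro ⟨x, hx, rfl⟩
      rw [LinearMap.mem_ker] at hx ⊢
      have h5 := h3 j x
      rw [hx, map_zero] at h5
      exact h5.symm
    · intro hy
      refine ⟨e.symm y, ?_, e.apply_symm_apply y⟩
      rw [LinearMap.mem_ker] at hy ⊢
      apply e.injective
      rw [h3, e.apply_symm_apply, hy, map_zero]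
  rw [← h4, LinearEquiv.finrank_map_eq]

end abstract

section sum

variable {K : Type} [Field K] [CharZero K] {ι : Type} [Fintype ι] [DecidableEq ι]
  {V : ι → Type} [∀ i, AddCommGroup (V i)] [∀ i, Module K (V i)] [∀ i, FiniteDimensional K (V i)]
  {Γ : Type} [Group Γ] {ρ : ∀ i, Representation K Γ (V i)}

theorem blocks_pow {V : Type} [AddCommGroup V] [Module K V] [FiniteDimensional K V] {g : End K V}
    {l : Multiset ℕ} (h : HasBlocks g l) {m : ℕ} (hm : 0 < m) : HasBlocks (g ^ m) l := by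
  refine ⟨h.1, ?_, fun j => ?_⟩
  · obtain ⟨k, hk⟩ := h.2.1
    refine ⟨k, ?_⟩
    have h1 := t_PW K V g h.2.1 m hm k
    rw [hk, LinearMap.ker_zero] at h1
    exact LinearMap.ker_eq_top.1 h1
  · rw [t_PW K V g h.2.1 m hm j, h.2.2 j]

omit [CharZero K] [∀ i, FiniteDimensional K (V i)] in
/-- the summands are semisimple -/
theorem semi_part (hs : FiniteIndexSemisimple (sumRep ρ)) (Δ : Subgroup Γ) (hΔ : Δ.FiniteIndex)
    (i : ι) : Semi {a : End K (V i) | ∃ t ∈ Δ, a = ρ i t} := by
  intro U hU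
  have hS : ∀ (t : Γ) (x : V i), sumRep ρ t (LinearMap.single K V i x) =
      LinearMap.single K V i (ρ i t x) := by
    intro t x
    funext j
    show ρ j t (LinearMap.single K V i x j) = LinearMap.single K V i (ρ i t x) j
    by_cases hj : j = i
    · subst hj
      simp
    · simp [Pi.single_eq_of_ne hj]
  obtain ⟨W, hW, hc⟩ := hs Δ hΔ (U.map (LinearMap.single K V i)) (by
    rintro t ht _ ⟨x, hx, rfl⟩
    rw [hS]
    exact ⟨ρ i t x, hU _ ⟨t, ht, rfl⟩ x hx, rfl⟩)
  refine ⟨W.comap (LinearMap.single K V i), ?_, ?_⟩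
  · rintro _ ⟨t, ht, rfl⟩ x hx
    rw [Submodule.mem_comap] at hx ⊢
    rw [← hS]
    exact hW t ht _ hx
  · constructor
    · rw [Submodule.disjoint_def]
      intro x hx hx'
      have h1 : LinearMap.single K V i x ∈ U.map (LinearMap.single K V i) ⊓ W :=
        ⟨⟨x, hx, rfl⟩, hx'⟩
      rw [hc.inf_eq_bot, Submodule.mem_bot] at h1
      have h2 := congrFun h1 i
      simpa using h2
    · rw [codisjoint_iff, eq_top_iff]
      intro x _
      have h1 : LinearMap.single K V i x ∈ U.map (LinearMap.single K V i) ⊔ W := by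
        rw [hc.sup_eq_top]
        trivial
      obtain ⟨_, ⟨u, hu, rfl⟩, w, hw, huw⟩ := Submodule.mem_sup.1 h1
      refine Submodule.mem_sup.2 ⟨u, hu, x - u, ?_, add_sub_cancel _ _⟩
      rw [Submodule.mem_comap, map_sub, ← huw, add_sub_cancel_left]
      exact hw

/-- **Endomorphisms which commute with a subgroup of finite index act as scalars on the summands.** -/
theorem endo_scalar (hs : FiniteIndexSemisimple (sumRep ρ)) {κ : Type} (γ : κ → Γ)
    (l : κ → ι → Multiset ℕ) (hl : ∀ c i, HasBlocks (ρ i (γ c)) (l c i))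
    (h1 : ∀ i d, 0 < d → d < finrank K (V i) → ∃ c, ¬ IsPartSum (l c i) d)
    (h2 : ∀ i j, i ≠ j → ∃ c, l c i ≠ l c j) (Δ : Subgroup Γ) (hΔ : Δ.FiniteIndex)
    (Y : End K (∀ i, V i)) (hY : ∀ t ∈ Δ, sumRep ρ t * Y = Y * sumRep ρ t) :
    ∃ b : ι → K, ∀ x i, Y x i = b i • x i := by
  classical
  -- powers of the `γ c` in `Δ`
  have hp : ∀ c, ∃ m : ℕ, 0 < m ∧ γ c ^ m ∈ Δ := by
    intro c
    obtain ⟨m, hm0, -, hm⟩ := Subgroup.exists_pow_mem_of_index_ne_zero hΔ.index_ne_zero (γ c)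
    exact ⟨m, hm0, hm⟩
  choose m hm hmΔ using hp
  have hb : ∀ c i, HasBlocks (ρ i (γ c ^ m c)) (l c i) := by
    intro c i
    rw [map_pow]
    exact blocks_pow (hl c i) (hm c)
  have hirr : ∀ i (U : Submodule K (V i)), (∀ t ∈ Δ, ∀ x ∈ U, ρ i t x ∈ U) → U = ⊥ ∨ U = ⊤ := by
    intro i U hU
    refine irreducible (semi_part hs Δ hΔ i) (g := fun c => ρ i (γ c ^ m c))
      (fun c => ⟨_, hmΔ c, rfl⟩) (fun c => hb c i) (h1 i) U ?_
    rintro _ ⟨t, ht, rfl⟩ x hx
    exact hU t ht x hx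
  have hS : ∀ (t : Γ) (j : ι) (x : V j), sumRep ρ t (LinearMap.single K V j x) =
      LinearMap.single K V j (ρ j t x) := by
    intro t i x
    funext j
    show ρ j t (LinearMap.single K V i x j) = LinearMap.single K V i (ρ i t x) j
    by_cases hj : j = i
    · subst hj
      simp
    · simp [Pi.single_eq_of_ne hj]
  -- the blocks of `Y`
  have hcomm : ∀ (i j : ι) (t : Γ), t ∈ Δ → ∀ x : V j,
      Y (LinearMap.single K V j (ρ j t x)) i = ρ i t (Y (LinearMap.single K V j x) i) := by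
    intro i j t ht x
    have h3 := LinearMap.congr_fun (hY t ht) (LinearMap.single K V j x)
    rw [Module.End.mul_apply, Module.End.mul_apply, hS] at h3
    exact (congrFun h3 i).symm
  have hoff : ∀ i j, i ≠ j → ∀ x : V j, Y (LinearMap.single K V j x) i = 0 := by
    intro i j hij x
    obtain ⟨c, hc⟩ := h2 j i (Ne.symm hij)
    have h3 := hom_zero (K := K) (Δ := {t | t ∈ Δ}) (ρ := fun t => ρ j t) (ρ' := fun t => ρ i t)
      (hmΔ c) (hb c j) (hb c i) hc (hirr j) (hirr i)
      ((LinearMap.proj i).comp (Y.comp (LinearMap.single K V j)))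
      (fun t ht x => hcomm i j t ht x)
    exact LinearMap.congr_fun h3 x
  have hdiag : ∀ i, ∃ b : K, ∀ x : V i, Y (LinearMap.single K V i x) i = b • x := by
    intro i
    refine scalar (semi_part hs Δ hΔ i) (g := fun c => ρ i (γ c ^ m c))
      (fun c => ⟨_, hmΔ c, rfl⟩) (fun c => hb c i) (h1 i)
      ((LinearMap.proj i).comp (Y.comp (LinearMap.single K V i))) ?_
    rintro _ ⟨t, ht, rfl⟩
    refine LinearMap.ext fun x => ?_
    exact (hcomm i i t ht x).symm
  choose b hb' using hdiag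
  refine ⟨b, fun x i => ?_⟩
  have h3 : x = ∑ j, LinearMap.single K V j (x j) := by
    funext k
    rw [Finset.sum_apply]
    simp
  conv_lhs => rw [h3]
  rw [map_sum, Finset.sum_apply, Finset.sum_eq_single i]
  · exact hb' i (x i)
  · intro j _ hj
    exact hoff i j (Ne.symm hj) (x j)
  · intro hi
    exact absurd (Finset.mem_univ i) hi

end sum

section member

variable {Γ : Type} [Group Γ] {ι : Type} [Fintype ι] [DecidableEq ι] {n : ι → ℕ} {ℓ : ℕ}
  [Fact ℓ.Prime]

/-- `g` acts unipotently on the `i`-th summand, and the sizes of the blocks of its Jordan normal form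
are the numbers in `l`. -/
def BlocksOn (ρ : Reps Γ n ℓ) (i : ι) (g : Γ) (l : Multiset ℕ) : Prop := HasBlocks (ρ i g) l

theorem tateEndomorphisms (ρ : Reps Γ n ℓ) (𝔤 : Submodule ℚ (End ℚ (Betti n)))
    (hm : Motivic ρ (scalars ℓ 𝔤)) (hs : Semisimple ρ) {κ : Type} (γ : κ → Γ)
    (l : κ → ι → Multiset ℕ) (hl : ∀ c i, BlocksOn ρ i (γ c) (l c i))
    (h1 : ∀ i d, 0 < d → d < n i → ∃ c, ¬ IsPartSum (l c i) d)
    (h2 : ∀ i j, i ≠ j → ∃ c, l c i ≠ l c j) : TateEndomorphisms ρ 𝔤 := by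
  rintro Y ⟨Δ, hΔ, hY⟩ X hX
  have hs' : FiniteIndexSemisimple (sumRep (k := ℚ_[ℓ]) (V := fun i => Fin (n i) → ℚ_[ℓ]) ρ) := hs
  obtain ⟨b, hb⟩ := endo_scalar (K := ℚ_[ℓ]) (V := fun i => Fin (n i) → ℚ_[ℓ]) (ρ := ρ) hs' γ l
    hl (fun i d hd hd' => h1 i d hd (by
      have h3 : finrank ℚ_[ℓ] (Fin (n i) → ℚ_[ℓ]) = n i := by simp
      rwa [h3] at hd')) h2 Δ hΔ Y hY
  have hm' : IsMotivic (k := ℚ_[ℓ]) (V := fun i => Fin (n i) → ℚ_[ℓ]) ρ (scalars ℓ 𝔤) := hm
  have hp := hm'.parts X hX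
  refine LinearMap.ext fun x => funext fun i => ?_
  rw [Module.End.mul_apply, Module.End.mul_apply, hp (Y x) i, hb (X x) i, hp x i, hb x i]
  have h3 : (Pi.single i (b i • x i) : ∀ i, Fin (n i) → ℚ_[ℓ]) = b i • Pi.single i (x i) := by
    rw [← Pi.single_smul]
  rw [h3, map_smul]
  rfl

end member

end Pool.Agent.N978.JT
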