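import Pool.Agent.N978.JT.Stm

set_option autoImplicit false

/-!
# JT/FD: the degree of an irreducible polynomial that annihilates an endomorphism divides the
dimension
-/

namespace Pool.Agent.N978.JT

open Polynomial Module LinearMap

namespace FD

/-- the action of `K[X] / (p)` -/
noncomputable def act {K V : Type} [Field K] [AddCommGroup V] [Module K V] (f : End K V) (p : K[X])
    (hf : aeval f p = 0) : AdjoinRoot p →+* End K V :=
  Ideal.Quotient.lift (Ideal.span {p}) (aeval f : K[X] →ₐ[K] End K V).toRingHom (by
    intro a ha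
    obtain ⟨c, rfl⟩ := Ideal.mem_span_singleton.1 ha
    change aeval f (p * c) = 0
    rw [map_mul, hf, zero_mul])

theorem act_algebraMap {K V : Type} [Field K] [AddCommGroup V] [Module K V] (f : End K V)
    (p : K[X]) (hf : aeval f p = 0) (k : K) :
    act f p hf (algebraMap K (AdjoinRoot p) k) = algebraMap K (End K V) k := by
  have h1 : algebraMap K (AdjoinRoot p) k = AdjoinRoot.mk p (C k) := by
    rw [AdjoinRoot.algebraMap_eq]; rfl
  rw [h1]
  have h2 : act f p hf (AdjoinRoot.mk p (C k)) = aeval f (C k) := rfl
  rw [h2, aeval_C]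

end FD

/-- FD -/
theorem t_FD : S_FD := by
  intro K V _ _ _ _ f p hp hf
  haveI : Fact (Irreducible p) := ⟨hp⟩
  letI : Module (AdjoinRoot p) V := Module.compHom V (FD.act f p hf)
  haveI : IsScalarTower K (AdjoinRoot p) V := by
    refine IsScalarTower.of_algebraMap_smul fun k v => ?_
    change FD.act f p hf (algebraMap K (AdjoinRoot p) k) • v = k • v
    rw [FD.act_algebraMap]
    simp
  have h1 := Module.finrank_mul_finrank K (AdjoinRoot p) V
  have h2 : finrank K (AdjoinRoot p) = p.natDegree := by
    rw [(AdjoinRoot.powerBasis hp.ne_zero).finrank, AdjoinRoot.powerBasis_dim]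
  rw [h2] at h1
  exact ⟨_, h1.symm⟩

end Pool.Agent.N978.JT
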