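import Pool.Agent.N978.JT.Endo

/-!
# The theorem for 100 percent of the members
-/

set_option autoImplicit false

namespace Pool.Agent.N978.JT

open NumberField IsDedekindDomain Polynomial Module Pool.Agent.Y114.TF Pool.Agent.Y114.GF
  Pool.Agent.Y114.MU Pool.Agent.Y114.RM Pool.Agent.R931.IR Pool.Agent.N203.RE Pool.Agent.N978.HP

variable {Γ : Type} [Group Γ] [TopologicalSpace Γ] {ι : Type} [DecidableEq ι]
  {n : ι → ℕ}

/-- The local monodromy at the zeros of the binary form `C` of positive degree: if `t` is a point of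
`U` whose reduction modulo a prime number `p`, not dividing `m`, is a zero of `C`, then for every
prime number `ℓ ≠ p` there is an element `γ` of the Galois group of `ℚ` (a power of a generator of the
tame inertia group at `p`) which acts unipotently on the `ℓ`-adic realizations of all the `M i` at
`t`, with Jordan blocks of the sizes in `l i`. -/
def CuspOfType (s : Pt → Gal(AlgebraicClosure ℚ/ℚ) →* Γ) (m : ℕ)
    (D C : MvPolynomial (Fin 2) ℤ) (ρ : ∀ (ℓ : ℕ) [Fact ℓ.Prime], Reps Γ n ℓ)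
    (l : ι → Multiset ℕ) : Prop :=
  (∃ d, 0 < d ∧ C.IsHomogeneous d) ∧
    ∀ (t : Pt) (p : ℕ), InU D t → p.Prime → ¬ p ∣ m → (p : ℤ) ∣ t.val C →
      ∀ (ℓ : ℕ) [Fact ℓ.Prime], ℓ ≠ p → ∃ γ : Gal(AlgebraicClosure ℚ/ℚ),
        ∀ i, BlocksOn (restrictTo (ρ ℓ) (s t)) i γ (l i)

theorem types_almostAll [Fintype ι] {s : Pt → Gal(AlgebraicClosure ℚ/ℚ) →* Γ} {w : ι → ℤ} {m : ℕ}
    {D : MvPolynomial (Fin 2) ℤ} {P : ℕ → Pt → ι → ℚ[X]}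
    {ρ : ∀ (ℓ : ℕ) [Fact ℓ.Prime], Reps Γ n ℓ} {𝔤 : Submodule ℚ (End ℚ (Betti n))}
    (hSV : S_SV) (hDV : S_DV) (hAA : S_AA) (h : Family s w m D P ρ 𝔤)
    (r : ℕ) (hr : RatRankLE 𝔤 r)
    {t₀ : Pt} (ht₀ : InU D t₀) (c : ℕ)
    (hc : ∀ v i, GoodAt m D t₀ (q v) → IntegralRoots c v (P (q v) t₀ i))
    (ℓ₀ : ℕ) [hℓ₀ : Fact ℓ₀.Prime] (σ : Gal(AlgebraicClosure ℚ/ℚ))
    (hσ : IndependentEigenvalues (restrictTo (ρ ℓ₀) (s t₀)) σ r)
    {κ : Type} [Finite κ] (C : κ → MvPolynomial (Fin 2) ℤ) (l : κ → ι → Multiset ℕ)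
    (hcusp : ∀ k, CuspOfType s m D (C k) ρ (l k))
    (h1 : ∀ i d, 0 < d → d < n i → ∃ k, ¬ IsPartSum (l k i) d)
    (h2 : ∀ i j, i ≠ j → ∃ k, l k i ≠ l k j) :
    AlmostAll fun t => InU D t ∧ ∀ (ℓ : ℕ) [Fact ℓ.Prime],
      Semisimple (restrictTo (ρ ℓ) (s t)) ∧
        TateTensorsOf (restrictTo (ρ ℓ) (s t)) (scalars ℓ 𝔤) := by
  have h3 := rank_almostAll hSV hDV h r hr ht₀ c hc ℓ₀ σ hσ
  have h4 : ∀ k, AlmostAll fun t => ∃ F : Finset ℕ, 2 ≤ F.card ∧ ∀ p ∈ F,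
      p.Prime ∧ ¬ p ∣ m ∧ (p : ℤ) ∣ t.val (C k) := fun k =>
    sieve_zeros hSV hDV (hcusp k).1 h.pos 2
  refine almostAll_mono (hAA _ _ h3 (almostAll_forall hAA h4)) ?_
  rintro t ⟨⟨htU, hrk⟩, hcu⟩
  refine ⟨htU, fun ℓ hℓ => ?_⟩
  have hR := hrk ℓ
  refine ⟨hR.semisimple, hR.tate.2 ?_⟩
  have h5 : ∀ k, ∃ γ : Gal(AlgebraicClosure ℚ/ℚ),
      ∀ i, BlocksOn (restrictTo (ρ ℓ) (s t)) i γ (l k i) := by
    intro k
    obtain ⟨F', hF', hFp'⟩ := hcu k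
    obtain ⟨p, hp, hne'⟩ := exists_ne hF' ℓ
    obtain ⟨hpp, hpm, hdiv⟩ := hFp' p hp
    exact (hcusp k).2 t p htU hpp hpm hdiv ℓ hne'.symm
  choose γ hγ using h5
  exact tateEndomorphisms (restrictTo (ρ ℓ) (s t)) 𝔤 (motivic_restrict (h.motivic ℓ) (s t))
    hR.semisimple γ l hγ h1 h2

end Pool.Agent.N978.JT
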