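import Pool.Agent.N978.JT.Stm

/-!
# PW: kernels of the powers of a unipotent element
-/

set_option autoImplicit false

namespace Pool.Agent.N978.JT

open Module Polynomial LinearMap

namespace PW

theorem unit_s {K V : Type} [Field K] [CharZero K] [AddCommGroup V] [Module K V]
    (g : End K V) (hg : IsNilpotent (g - 1)) (n : ℕ) (hn : 0 < n) :
    IsUnit (∑ i ∈ Finset.range n, g ^ i) := by
  have hc : ∀ m : ℕ, Commute (g - 1) (∑ i ∈ Finset.range m, g ^ i) := fun m =>
    Commute.sum_right _ _ _ fun i _ =>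
      ((Commute.refl g).sub_left (Commute.one_left g)).pow_right i
  have e1 : ∑ i ∈ Finset.range n, g ^ i = (n : End K V) +
      (g - 1) * ∑ i ∈ Finset.range n, ∑ k ∈ Finset.range i, g ^ k := by
    rw [Finset.mul_sum]
    have e2 : ∀ i ∈ Finset.range n, (g - 1) * ∑ k ∈ Finset.range i, g ^ k = g ^ i - 1 :=
      fun i _ => mul_geom_sum g i
    rw [Finset.sum_congr rfl e2, Finset.sum_sub_distrib]
    simp
  have hc2 : Commute (g - 1) (∑ i ∈ Finset.range n, ∑ k ∈ Finset.range i, g ^ k) :=
    Commute.sum_right _ _ _ fun i _ => hc i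
  have hr : IsNilpotent ((g - 1) * ∑ i ∈ Finset.range n, ∑ k ∈ Finset.range i, g ^ k) :=
    hc2.isNilpotent_mul_right hg
  have hu : IsUnit (n : End K V) := by
    have h1 : IsUnit (n : K) := (Nat.cast_ne_zero.2 hn.ne').isUnit
    have h2 := h1.map (algebraMap K (End K V))
    simpa using h2
  rw [e1]
  exact hr.isUnit_add_left_of_commute hu (Nat.commute_cast _ _)

end PW

theorem t_PW : S_PW := by
  intro K V _ _ _ _ _ g hg n hn j
  have hs := PW.unit_s g hg n hn
  have hc : Commute (g - 1) (∑ i ∈ Finset.range n, g ^ i) :=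
    Commute.sum_right _ _ _ fun i _ =>
      ((Commute.refl g).sub_left (Commute.one_left g)).pow_right i
  have e1 : (g ^ n - 1) ^ j = (∑ i ∈ Finset.range n, g ^ i) ^ j * (g - 1) ^ j := by
    rw [← mul_geom_sum g n, hc.mul_pow, (hc.pow_pow j j).eq]
  rw [e1]
  have hsj := hs.pow j
  ext x
  rw [mem_ker, mem_ker, Module.End.mul_apply]
  have hinj : Function.Injective ((∑ i ∈ Finset.range n, g ^ i) ^ j) :=
    ((Module.End.isUnit_iff _).1 hsj).1
  rw [map_eq_zero_iff _ hinj]

end Pool.Agent.N978.JT
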