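import Pool.Agent.N978.JT.CO
import Pool.Agent.N978.JT.CC
import Pool.Agent.N978.JT.DS
import Pool.Agent.N978.JT.FD
import Pool.Agent.N978.JT.PW

/-!
# Irreducibility from Jordan types
-/

set_option autoImplicit false

namespace Pool.Agent.N978.JT

open Module Polynomial LinearMap

/-- `d` is the sum of some of the numbers in `l`. -/
def IsPartSum (l : Multiset ℕ) (d : ℕ) : Prop := ∃ l' ≤ l, l'.sum = d

section

variable {K V : Type} [Field K] [AddCommGroup V] [Module K V]

/-- `g` is unipotent and the positive numbers in `l` are the sizes of the blocks of its Jordan normal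
form: the kernel of `(g - 1) ^ j` has the dimension `∑ min b j`, the sum over the `b` in `l`. -/
def HasBlocks (g : End K V) (l : Multiset ℕ) : Prop :=
  0 ∉ l ∧ IsNilpotent (g - 1) ∧ ∀ j, finrank K (ker ((g - 1) ^ j)) = kerDims l j

theorem blocks_unique {V' : Type} [AddCommGroup V'] [Module K V'] {g : End K V} {g' : End K V'}
    {l l' : Multiset ℕ} (h : HasBlocks g l) (h' : HasBlocks g' l')
    (he : ∀ j, finrank K (ker ((g - 1) ^ j)) = finrank K (ker ((g' - 1) ^ j))) : l = l' := by
  have hk : ∀ j, kerDims l j = kerDims l' j := fun j => by rw [← h.2.2 j, ← h'.2.2 j, he j]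
  -- the number of blocks of size `j + 1`
  have hc : ∀ (l : Multiset ℕ) (j : ℕ),
      kerDims l j + kerDims l (j + 2) + l.count (j + 1) = 2 * kerDims l (j + 1) := by
    intro l j
    induction l using Multiset.induction_on with
    | empty => simp [kerDims]
    | cons a l ih =>
      unfold kerDims at ih ⊢
      simp only [Multiset.map_cons, Multiset.sum_cons, Multiset.count_cons]
      split_ifs with hja <;> omega
  ext j
  cases j with
  | zero => rw [Multiset.count_eq_zero_of_notMem h.1, Multiset.count_eq_zero_of_notMem h'.1]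
  | succ j =>
    have h1 := hc l j
    have h2 := hc l' j
    have h3 := hk j
    have h4 := hk (j + 1)
    have h5 := hk (j + 2)
    omega

variable [FiniteDimensional K V]

omit [FiniteDimensional K V] in
theorem pow_restrict_nil {N : End K V} {U : Submodule K V} (hU : ∀ x ∈ U, N x ∈ U) {m : ℕ}
    (hm : N ^ m = 0) : (N.restrict hU) ^ m = 0 := by
  have h1 : ∀ (k : ℕ) (x : U), (((N.restrict hU) ^ k) x : V) = (N ^ k) x := by
    intro k
    induction k with
    | zero => intro x; simp
    | succ k ih => intro x; rw [pow_succ', pow_succ', Module.End.mul_apply, Module.End.mul_apply,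
        LinearMap.coe_restrict_apply, ih]
  refine LinearMap.ext fun x => Subtype.ext ?_
  rw [h1, hm]
  rfl

/-- a stable decomposition cuts the list of the block sizes in two -/
theorem partSum_of_isCompl {g : End K V} {l : Multiset ℕ} (h : HasBlocks g l)
    {U U' : Submodule K V} (hU : ∀ x ∈ U, g x ∈ U) (hU' : ∀ x ∈ U', g x ∈ U')
    (hc : IsCompl U U') : IsPartSum l (finrank K U) := by
  have hN : ∀ {W : Submodule K V}, (∀ x ∈ W, g x ∈ W) → ∀ x ∈ W, (g - 1) x ∈ W := by
    intro W hW x hx
    rw [LinearMap.sub_apply]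
    exact W.sub_mem (hW x hx) hx
  obtain ⟨m, hm⟩ := h.2.1
  have hz : ∀ {W : Submodule K V} (hW : ∀ x ∈ W, (g - 1) x ∈ W) (j : ℕ), m ≤ j →
      finrank K (ker (((g - 1).restrict hW) ^ j)) = finrank K W := by
    intro W hW j hj
    have h0 : ((g - 1).restrict hW) ^ j = 0 := by
      rw [← Nat.sub_add_cancel hj, pow_add, pow_restrict_nil hW hm, mul_zero]
    rw [h0, LinearMap.ker_zero, finrank_top]
  refine t_CO l (fun j => finrank K (ker (((g - 1).restrict (hN hU)) ^ j)))
    (fun j => finrank K (ker (((g - 1).restrict (hN hU')) ^ j))) (finrank K U) m ?_ ?_ ?_ ?_ ?_ ?_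
  · show finrank K (ker (((g - 1).restrict (hN hU)) ^ 0)) = 0
    rw [pow_zero, show (1 : End K U) = LinearMap.id from rfl, LinearMap.ker_id, finrank_bot]
  · show finrank K (ker (((g - 1).restrict (hN hU')) ^ 0)) = 0
    rw [pow_zero, show (1 : End K U') = LinearMap.id from rfl, LinearMap.ker_id, finrank_bot]
  · intro j
    rw [← h.2.2 j]
    exact t_DS K V (g - 1) U U' (hN hU) (hN hU') hc j
  · intro j
    exact t_CC K U _ j
  · intro j
    exact t_CC K U' _ j
  · intro j hj
    exact hz (hN hU) j hj

theorem kerDims_zero (l : Multiset ℕ) : kerDims l 0 = 0 := by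
  unfold kerDims
  simp

/-- an extension field in the commutant divides the list of the block sizes -/
theorem partSum_of_field {g f : End K V} {l : Multiset ℕ} (h : HasBlocks g l) (hfg : g * f = f * g)
    {p : K[X]} (hp : Irreducible p) (hpf : aeval f p = 0) :
    ∃ d, IsPartSum l d ∧ p.natDegree * d = finrank K V := by
  have hdv : ∀ (W : Submodule K V) (_ : ∀ x ∈ W, f x ∈ W), p.natDegree ∣ finrank K W := by
    intro W hW
    refine t_FD K W (f.restrict hW) p hp ?_
    have h1 : ∀ (q : K[X]) (x : W), ((aeval (f.restrict hW) q) x : V) = (aeval f q) x := by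
      intro q
      induction q using Polynomial.induction_on' with
      | add a b ha hb =>
        intro x
        rw [map_add, map_add, LinearMap.add_apply, LinearMap.add_apply, Submodule.coe_add, ha, hb]
      | monomial k a =>
        have h2 : ∀ (k : ℕ) (x : W), (((f.restrict hW) ^ k) x : V) = (f ^ k) x := by
          intro k
          induction k with
          | zero => intro x; simp
          | succ k ih => intro x; rw [pow_succ', pow_succ', Module.End.mul_apply,
              Module.End.mul_apply, LinearMap.coe_restrict_apply, ih]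
        intro x
        rw [aeval_monomial, aeval_monomial, Module.End.mul_apply, Module.End.mul_apply,
          Module.algebraMap_end_apply, Module.algebraMap_end_apply, Submodule.coe_smul, h2]
    refine LinearMap.ext fun x => Subtype.ext ?_
    rw [h1, hpf]
    rfl
  have hcomm : Commute (g - 1) f := by
    show (g - 1) * f = f * (g - 1)
    rw [sub_mul, mul_sub, hfg, one_mul, mul_one]
  have hk : ∀ j, p.natDegree ∣ kerDims l j := by
    intro j
    rw [← h.2.2 j]
    refine hdv _ fun x hx => ?_
    rw [LinearMap.mem_ker] at hx ⊢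
    have h3 : ((g - 1) ^ j) * f = f * (g - 1) ^ j := (hcomm.pow_left j).eq
    rw [← Module.End.mul_apply, h3, Module.End.mul_apply, hx, map_zero]
  have he : 0 < p.natDegree := hp.natDegree_pos
  choose κ hκ using hk
  obtain ⟨m, hm⟩ := h.2.1
  have htop : ∀ j, m ≤ j → kerDims l j = finrank K V := by
    intro j hj
    have h0 : (g - 1) ^ j = 0 := by
      rw [← Nat.sub_add_cancel hj, pow_add, hm, mul_zero]
    rw [← h.2.2 j, h0, LinearMap.ker_zero, finrank_top]
  have hcc : ∀ j, κ j + κ (j + 2) ≤ 2 * κ (j + 1) := by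
    intro j
    have h1 := t_CC K V (g - 1) j
    rw [h.2.2, h.2.2, h.2.2, hκ j, hκ (j + 1), hκ (j + 2)] at h1
    have h2 : p.natDegree * (κ j + κ (j + 2)) ≤ p.natDegree * (2 * κ (j + 1)) := by
      calc _ = p.natDegree * κ j + p.natDegree * κ (j + 2) := by ring
        _ ≤ _ := h1
        _ = _ := by ring
    exact Nat.le_of_mul_le_mul_left h2 he
  obtain ⟨e, hee⟩ : ∃ e, p.natDegree = e + 1 := ⟨p.natDegree - 1, by omega⟩
  refine ⟨κ m, ?_, by rw [← hκ m, htop m le_rfl]⟩
  refine t_CO l κ (fun j => e * κ j) (κ m) m ?_ ?_ ?_ hcc ?_ ?_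
  · have h1 := hκ 0
    rw [kerDims_zero] at h1
    rcases Nat.mul_eq_zero.1 h1.symm with h2 | h2
    · omega
    · exact h2
  · have h1 := hκ 0
    rw [kerDims_zero] at h1
    rcases Nat.mul_eq_zero.1 h1.symm with h2 | h2
    · omega
    · show e * κ 0 = 0
      rw [h2, mul_zero]
  · intro j
    show κ j + e * κ j = kerDims l j
    rw [hκ j, hee]
    ring
  · intro j
    show e * κ j + e * κ (j + 2) ≤ 2 * (e * κ (j + 1))
    calc _ = e * (κ j + κ (j + 2)) := by ring
      _ ≤ e * (2 * κ (j + 1)) := Nat.mul_le_mul_left _ (hcc j)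
      _ = _ := by ring
  · intro j hj
    have h1 := htop j hj
    rw [hκ j] at h1
    have h2 := htop m le_rfl
    rw [hκ m] at h2
    exact Nat.eq_of_mul_eq_mul_left he (h1.trans h2.symm)

end

end Pool.Agent.N978.JT
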