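import Mathlib

/-!
# Jordan types and stable decompositions: statements
-/

set_option autoImplicit false

namespace Pool.Agent.N978.JT

open Module Polynomial LinearMap

/-- The dimension of the kernel of the `j`-th power of a nilpotent endomorphism with Jordan blocks of
the sizes in `l`. -/
def kerDims (l : Multiset ℕ) (j : ℕ) : ℕ := (l.map fun b => min b j).sum

/-- **CO** (combinatorics): if `κ + κ'` is the sequence `kerDims l`, with concave sequences `κ`, `κ'`
starting with `0`, and `κ` is equal to `d` from some point on, then `d` is the sum of a part of `l`. -/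
def S_CO : Prop := ∀ (l : Multiset ℕ) (κ κ' : ℕ → ℕ) (d N : ℕ), κ 0 = 0 → κ' 0 = 0 →
  (∀ j, κ j + κ' j = kerDims l j) → (∀ j, κ j + κ (j + 2) ≤ 2 * κ (j + 1)) →
  (∀ j, κ' j + κ' (j + 2) ≤ 2 * κ' (j + 1)) → (∀ j, N ≤ j → κ j = d) → ∃ l' ≤ l, l'.sum = d

/-- **CC** (concavity of the dimensions of the kernels of the powers). -/
def S_CC : Prop := ∀ (K V : Type) [Field K] [AddCommGroup V] [Module K V] [FiniteDimensional K V]
  (N : End K V) (j : ℕ),
  finrank K (ker (N ^ j)) + finrank K (ker (N ^ (j + 2))) ≤ 2 * finrank K (ker (N ^ (j + 1)))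

/-- **DS** (direct sums): the kernels of the powers, for the two summands of a stable
decomposition. -/
def S_DS : Prop := ∀ (K V : Type) [Field K] [AddCommGroup V] [Module K V] [FiniteDimensional K V]
  (N : End K V) (U U' : Submodule K V) (hU : ∀ x ∈ U, N x ∈ U) (hU' : ∀ x ∈ U', N x ∈ U'),
  IsCompl U U' → ∀ j : ℕ, finrank K (ker ((N.restrict hU) ^ j)) +
    finrank K (ker ((N.restrict hU') ^ j)) = finrank K (ker (N ^ j))

/-- **FD** (vector spaces over an extension field): if `p(f) = 0` for an irreducible polynomial `p`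
then the degree of `p` divides the dimension. -/
def S_FD : Prop := ∀ (K V : Type) [Field K] [AddCommGroup V] [Module K V] [FiniteDimensional K V]
  (f : End K V) (p : K[X]), Irreducible p → aeval f p = 0 → p.natDegree ∣ finrank K V

/-- **PW** (powers of a unipotent element). -/
def S_PW : Prop := ∀ (K V : Type) [Field K] [CharZero K] [AddCommGroup V] [Module K V]
  [FiniteDimensional K V] (g : End K V), IsNilpotent (g - 1) → ∀ n : ℕ, 0 < n → ∀ j : ℕ,
  ker ((g ^ n - 1) ^ j) = ker ((g - 1) ^ j)

end Pool.Agent.N978.JT
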